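import Pool.Agent.Helper18.BV.Defs
import Pool.Agent.Helper44.Mertens

/-!
# PS-Many, second half: from the weighted sum to the number of primes

`ManySum D g`: lower bound for the sum of `Λ n * wt g x n` over the pairs `(q, n)`, `q` a prime in
`(x ^ (1/81), x ^ (1/80)]`, `D q ∣ n + 1`.  Every `n` is counted at most `162` times, the proper prime
powers contribute a bounded amount, and the weight of a prime is at most `x ^ (-(1 - τ'))`.
-/

set_option autoImplicit false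

open Finset
open scoped ArithmeticFunction.vonMangoldt

namespace Pool.Agent.Helper48.PS

open Pool.Agent.Helper18.BV

open Classical in
/-- The primes `r ≤ x`, `r > B`, `D ∣ r + 1`, for which `r + 1` has a prime factor in
`(x ^ (1/81), x ^ (1/80)]` (same as in `Pool.Agent.Helper14.PS`). -/
noncomputable def Rs (D B x : ℕ) : Finset ℕ :=
  (Icc 1 x).filter (fun r => r.Prime ∧ D ∣ r + 1 ∧ B < r ∧ ∃ q : ℕ, q.Prime ∧
    (x : ℝ) ^ (1 / 81 : ℝ) < q ∧ (q : ℝ) ≤ (x : ℝ) ^ (1 / 80 : ℝ) ∧ q ∣ r + 1)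

open Classical in
/-- the primes in `(x ^ (1/81), x ^ (1/80)]` -/
noncomputable def Qs (x : ℕ) : Finset ℕ :=
  (Icc 1 x).filter (fun q => q.Prime ∧ (x : ℝ) ^ (1 / 81 : ℝ) < q ∧ (q : ℝ) ≤ (x : ℝ) ^ (1 / 80 : ℝ))

/-- the lower bound for the weighted sum -/
def ManySum (D : ℕ) (g : ℝ → ℝ) : Prop := ∃ c : ℝ, 0 < c ∧ ∃ x₀ : ℕ, ∀ x : ℕ, x₀ ≤ x →
  c * Real.log x ≤ ∑ q ∈ Qs x, ∑ n ∈ (Icc 1 x).filter (fun n => D * q ∣ n + 1), Λ n * wt g x n

/-- a weight function supported close to `1` -/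
theorem exists_wt' {τ : ℝ} (h0 : 0 < τ) (h1 : τ ≤ 1 / 2) : ∃ g : ℝ → ℝ, IsWt g ∧ (∃ y, g y ≠ 0) ∧
    (∀ y, g y ≤ 1) ∧ ∀ y, y ≤ 1 - τ → g y = 0 := by
  obtain ⟨g, hg1, hg2, hg3, hg4, hg5⟩ := exists_contDiff_tsupport_subset (n := (⊤ : ℕ∞))
    (s := Set.Ioo (1 - τ) 1) (x := 1 - τ / 2) (Ioo_mem_nhds (by linarith) (by linarith))
  have hr : ∀ y, g y ∈ Set.Icc (0:ℝ) 1 := fun y => hg4 (Set.mem_range_self y)
  refine ⟨g, ⟨hg3, hg1.trans (Set.Ioo_subset_Ioo_left (by linarith)), fun v => (hr v).1⟩,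
    ⟨1 - τ / 2, by rw [hg5]; norm_num⟩, fun y => (hr y).2, ?_⟩
  intro y hy
  by_contra hne
  have := hg1 (subset_tsupport g (Function.mem_support.2 hne))
  exact absurd this.1 (not_lt.2 hy)

/-- an integer `n ≤ x` is counted at most `162` times -/
theorem card_count {x n : ℕ} (hx : 2 ≤ x) (hn : n ≤ x) :
    #((Qs x).filter (fun q => q ∣ n + 1)) ≤ 162 := by
  classical
  by_contra hcon
  push Not at hcon
  have hx1 : (1 : ℝ) < x := by exact_mod_cast (by omega : 1 < x)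
  have hx0 : (0 : ℝ) < x := by linarith
  set A := (Qs x).filter (fun q => q ∣ n + 1) with hA
  have hmem : ∀ q ∈ A, q.Prime ∧ (x : ℝ) ^ (1 / 81 : ℝ) < q ∧ q ∣ n + 1 := by
    intro q hq
    rw [hA, mem_filter, Qs, mem_filter] at hq
    exact ⟨hq.1.2.1, hq.1.2.2.1, hq.2⟩
  have hdvd : ∏ q ∈ A, q ∣ n + 1 :=
    Finset.prod_primes_dvd (n + 1) (fun q hq => (hmem q hq).1.prime) fun q hq => (hmem q hq).2.2
  have hle : ∏ q ∈ A, (q : ℝ) ≤ n + 1 := by
    have := Nat.le_of_dvd (Nat.succ_pos n) hdvd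
    calc ∏ q ∈ A, (q : ℝ) = ((∏ q ∈ A, q : ℕ) : ℝ) := by push_cast; rfl
      _ ≤ ((n + 1 : ℕ) : ℝ) := by exact_mod_cast this
      _ = n + 1 := by push_cast; rfl
  have hy : (1 : ℝ) ≤ (x : ℝ) ^ (1 / 81 : ℝ) := Real.one_le_rpow hx1.le (by norm_num)
  have h1 : ((x : ℝ) ^ (1 / 81 : ℝ)) ^ #A ≤ ∏ q ∈ A, (q : ℝ) := by
    rw [← Finset.prod_const]
    exact Finset.prod_le_prod (fun _ _ => by linarith) fun q hq => (hmem q hq).2.1.le
  have h2 : ((x : ℝ) ^ (1 / 81 : ℝ)) ^ 162 ≤ ((x : ℝ) ^ (1 / 81 : ℝ)) ^ #A :=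
    pow_le_pow_right₀ hy hcon.le
  have h3 : ((x : ℝ) ^ (1 / 81 : ℝ)) ^ 162 = (x : ℝ) ^ 2 := by
    rw [← Real.rpow_natCast, ← Real.rpow_mul hx0.le, ← Real.rpow_natCast (x : ℝ) 2]
    norm_num
  have h4 : (x : ℝ) ^ 2 ≤ n + 1 := by
    rw [← h3]
    exact h2.trans (h1.trans hle)
  have h5 : x ^ 2 ≤ n + 1 := by exact_mod_cast h4
  nlinarith

theorem wt_nonneg {g : ℝ → ℝ} (hg : IsWt g) (x : ℝ) (n : ℕ) : 0 ≤ wt g x n :=
  div_nonneg (hg.nonneg _) (Nat.cast_nonneg n)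

/-- the weight of an integer is at most `x ^ (-(1 - τ'))`, and it vanishes for `n ≤ x ^ (1 - τ')` -/
theorem wt_le {g : ℝ → ℝ} (hg : IsWt g) (hg1 : ∀ y, g y ≤ 1) {τ' : ℝ} (hg0 : ∀ y, y ≤ 1 - τ' → g y = 0)
    {x n : ℕ} (hx : 2 ≤ x) (hn : 1 ≤ n) :
    wt g x n ≤ (x : ℝ) ^ (-(1 - τ')) ∧ ((n : ℝ) ≤ (x : ℝ) ^ (1 - τ') → wt g x n = 0) := by
  have hx1 : (1 : ℝ) < x := by exact_mod_cast (by omega : 1 < x)
  have hx0 : (0 : ℝ) < x := by linarith
  have hlog : 0 < Real.log x := Real.log_pos hx1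
  have hn0 : (0 : ℝ) < n := by exact_mod_cast hn
  have hzero : (n : ℝ) ≤ (x : ℝ) ^ (1 - τ') → wt g x n = 0 := by
    intro h
    have h1 : Real.log n ≤ (1 - τ') * Real.log x := by
      rw [← Real.log_rpow hx0]
      exact Real.log_le_log hn0 h
    unfold wt
    rw [hg0 _ (by rw [div_le_iff₀ hlog]; exact h1), zero_div]
  refine ⟨?_, hzero⟩
  rcases le_or_gt (n : ℝ) ((x : ℝ) ^ (1 - τ')) with h | h
  · rw [hzero h]
    exact Real.rpow_nonneg hx0.le _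
  · unfold wt
    have hp : 0 < (x : ℝ) ^ (1 - τ') := Real.rpow_pos_of_pos hx0 _
    calc g (Real.log n / Real.log x) / n ≤ 1 / n := by
          apply div_le_div_of_nonneg_right (hg1 _) hn0.le
      _ ≤ 1 / (x : ℝ) ^ (1 - τ') := one_div_le_one_div_of_le hp h.le
      _ = (x : ℝ) ^ (-(1 - τ')) := by rw [Real.rpow_neg hx0.le, one_div]

/-- the contribution of the integers which are not prime -/
theorem nonprime_le {g : ℝ → ℝ} (hg : IsWt g) (hg1 : ∀ y, g y ≤ 1) (x : ℕ) (y : ℝ) (S : Finset ℕ)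
    (hS : S ⊆ Icc 1 x) (hSp : ∀ n ∈ S, ¬ n.Prime) :
    ∑ n ∈ S, Λ n * wt g y n ≤ Pool.Agent.Helper44.ppC := by
  classical
  have h0 := (Pool.Agent.Helper44.sum_vonMangoldt_div_sub_primes x).2
  have h1 : ∑ n ∈ S, Λ n * wt g y n ≤ ∑ n ∈ S, Λ n / n := by
    apply Finset.sum_le_sum
    intro n _
    unfold wt
    rw [← mul_div_assoc]
    apply div_le_div_of_nonneg_right _ (Nat.cast_nonneg n)
    calc Λ n * g (Real.log n / Real.log y) ≤ Λ n * 1 :=
          mul_le_mul_of_nonneg_left (hg1 _) ArithmeticFunction.vonMangoldt_nonneg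
      _ = Λ n := mul_one _
  have h2 : ∑ n ∈ S, Λ n / n ≤ ∑ n ∈ (Ioc 0 x).filter (fun n => ¬ n.Prime), Λ n / n := by
    apply Finset.sum_le_sum_of_subset_of_nonneg
    · intro n hn
      have := mem_Icc.1 (hS hn)
      rw [mem_filter, mem_Ioc]
      exact ⟨⟨by omega, this.2⟩, hSp n hn⟩
    · intro n _ _
      exact div_nonneg ArithmeticFunction.vonMangoldt_nonneg (Nat.cast_nonneg n)
  have h3 : ∑ n ∈ (Ioc 0 x).filter Nat.Prime, Λ n / n =
      ∑ q ∈ (Ioc 0 x).filter Nat.Prime, Real.log q / q := by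
    apply Finset.sum_congr rfl
    intro q hq
    rw [ArithmeticFunction.vonMangoldt_apply_prime (mem_filter.1 hq).2]
  have h4 := Finset.sum_filter_add_sum_filter_not (Ioc 0 x) Nat.Prime (fun n => Λ n / (n : ℝ))
  linarith

theorem many_of_sum {D : ℕ} (h : ∀ g : ℝ → ℝ, IsWt g → (∃ y, g y ≠ 0) → ManySum D g) (B : ℕ) (τ : ℝ)
    (hτ : 0 < τ) : ∃ x₀ : ℕ, ∀ x : ℕ, x₀ ≤ x → (x : ℝ) ^ (1 - τ) ≤ #(Rs D B x) := by
  classical
  set τ' : ℝ := min (τ / 2) (1 / 4) with hτ'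
  have hτ0 : 0 < τ' := lt_min (by linarith) (by norm_num)
  have hτ1 : τ' ≤ 1 / 4 := min_le_right _ _
  have hτ2 : τ' ≤ τ / 2 := min_le_left _ _
  obtain ⟨g, hg, hne, hg1, hg0⟩ := exists_wt' hτ0 (by linarith)
  obtain ⟨c, hc, x₁, hsum⟩ := h g hg hne
  set C := Pool.Agent.Helper44.ppC with hC
  have hC0 : 0 ≤ C := Pool.Agent.Helper44.ppC_nonneg
  -- large `x`
  have e1 : ∀ᶠ x : ℕ in Filter.atTop, 324 * C ≤ c * Real.log x :=
    ((Real.tendsto_log_atTop.comp tendsto_natCast_atTop_atTop).const_mul_atTop hc).eventually_ge_atTop _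
  have e2 : ∀ᶠ x : ℕ in Filter.atTop, 324 / c ≤ (x : ℝ) ^ (τ / 2) :=
    ((tendsto_rpow_atTop (by linarith)).comp tendsto_natCast_atTop_atTop).eventually_ge_atTop _
  have e3 : ∀ᶠ x : ℕ in Filter.atTop, (B : ℝ) ≤ (x : ℝ) ^ (1 - τ') :=
    ((tendsto_rpow_atTop (by linarith)).comp tendsto_natCast_atTop_atTop).eventually_ge_atTop _
  obtain ⟨x₂, hx₂⟩ := Filter.eventually_atTop.1 (e1.and (e2.and e3))
  refine ⟨max 2 (max x₁ x₂), fun x hx => ?_⟩
  have hx2 : 2 ≤ x := (le_max_left _ _).trans hx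
  obtain ⟨f1, f2, f3⟩ := hx₂ x (((le_max_right _ _).trans (le_max_right _ _)).trans hx)
  have hmain := hsum x (((le_max_left _ _).trans (le_max_right _ _)).trans hx)
  have hx1 : (1 : ℝ) < x := by exact_mod_cast (by omega : 1 < x)
  have hx0 : (0 : ℝ) < x := by linarith
  have hlog : 0 < Real.log x := Real.log_pos hx1
  -- the set of all `n`
  set S : Finset ℕ := (Icc 1 x).filter (fun n => D ∣ n + 1 ∧ ∃ q ∈ Qs x, q ∣ n + 1) with hS
  have hsw : ∑ q ∈ Qs x, ∑ n ∈ (Icc 1 x).filter (fun n => D * q ∣ n + 1), Λ n * wt g x n ≤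
      162 * ∑ n ∈ S, Λ n * wt g x n := by
    have h1 : ∀ q ∈ Qs x, ∑ n ∈ (Icc 1 x).filter (fun n => D * q ∣ n + 1), Λ n * wt g x n ≤
        ∑ n ∈ S, if q ∣ n + 1 then Λ n * wt g x n else 0 := by
      intro q hq
      rw [← Finset.sum_filter]
      apply Finset.sum_le_sum_of_subset_of_nonneg
      · intro n hn
        rw [mem_filter] at hn
        rw [mem_filter, hS, mem_filter]
        have hq' : q ∣ n + 1 := (Dvd.intro_left D rfl).trans hn.2
        exact ⟨⟨hn.1, (Dvd.intro q rfl).trans hn.2, q, hq, hq'⟩, hq'⟩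
      · intro n _ _
        exact mul_nonneg ArithmeticFunction.vonMangoldt_nonneg (wt_nonneg hg _ _)
    refine (Finset.sum_le_sum h1).trans ?_
    rw [Finset.sum_comm, Finset.mul_sum]
    apply Finset.sum_le_sum
    intro n hn
    rw [← Finset.sum_filter, Finset.sum_const, nsmul_eq_mul]
    apply mul_le_mul_of_nonneg_right _
      (mul_nonneg ArithmeticFunction.vonMangoldt_nonneg (wt_nonneg hg _ _))
    have hnx : n ≤ x := (mem_Icc.1 (mem_filter.1 hn).1).2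
    exact_mod_cast card_count hx2 hnx
  have hsplit := Finset.sum_filter_add_sum_filter_not S Nat.Prime (fun n => Λ n * wt g x n)
  have hnp : ∑ n ∈ S.filter (fun n => ¬ n.Prime), Λ n * wt g x n ≤ C :=
    nonprime_le hg hg1 x x _ ((filter_subset _ _).trans (filter_subset _ _))
      fun n hn => (mem_filter.1 hn).2
  have hpr : ∑ n ∈ S.filter Nat.Prime, Λ n * wt g x n ≤
      #(Rs D B x) * (Real.log x * (x : ℝ) ^ (-(1 - τ'))) := by
    have h1 : ∑ n ∈ (S.filter Nat.Prime) ∩ Rs D B x, Λ n * wt g x n =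
        ∑ n ∈ S.filter Nat.Prime, Λ n * wt g x n := by
      apply Finset.sum_subset inter_subset_left
      intro n hn hnn
      have hn1 := mem_filter.1 hn
      have hn2 := mem_filter.1 hn1.1
      have hn3 := mem_Icc.1 hn2.1
      have hnB : ¬ B < n := by
        intro hB
        apply hnn
        rw [mem_inter]
        refine ⟨hn, ?_⟩
        obtain ⟨hD, q, hq, hqn⟩ := hn2.2
        rw [Qs, mem_filter] at hq
        rw [Rs, mem_filter]
        exact ⟨hn2.1, hn1.2, hD, hB, q, hq.2.1, hq.2.2.1, hq.2.2.2, hqn⟩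
      have hle : (n : ℝ) ≤ (x : ℝ) ^ (1 - τ') := by
        refine le_trans ?_ f3
        exact_mod_cast not_lt.1 hnB
      rw [(wt_le hg hg1 hg0 hx2 hn3.1).2 hle, mul_zero]
    rw [← h1]
    have h2 : ∀ n ∈ (S.filter Nat.Prime) ∩ Rs D B x, Λ n * wt g x n ≤
        Real.log x * (x : ℝ) ^ (-(1 - τ')) := by
      intro n hn
      have hn1 := mem_filter.1 (mem_inter.1 hn).1
      have hn2 := mem_filter.1 hn1.1
      have hn3 := mem_Icc.1 hn2.1
      rw [ArithmeticFunction.vonMangoldt_apply_prime hn1.2]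
      have hn0 : (0 : ℝ) < n := by exact_mod_cast hn3.1
      exact mul_le_mul (Real.log_le_log hn0 (by exact_mod_cast hn3.2))
        (wt_le hg hg1 hg0 hx2 hn3.1).1 (wt_nonneg hg _ _) hlog.le
    have h3 := Finset.sum_le_card_nsmul _ _ _ h2
    rw [nsmul_eq_mul] at h3
    refine h3.trans ?_
    apply mul_le_mul_of_nonneg_right
    · exact_mod_cast Finset.card_le_card inter_subset_right
    · exact mul_nonneg hlog.le (Real.rpow_nonneg hx0.le _)
  have hfin : c * Real.log x ≤ 324 * (#(Rs D B x) * (Real.log x * (x : ℝ) ^ (-(1 - τ')))) := by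
    linarith
  have h1 : c ≤ 324 * (#(Rs D B x) * (x : ℝ) ^ (-(1 - τ'))) := by
    have : c * Real.log x ≤ (324 * (#(Rs D B x) * (x : ℝ) ^ (-(1 - τ')))) * Real.log x := by
      linarith
    exact le_of_mul_le_mul_right this hlog
  have hp : 0 < (x : ℝ) ^ (1 - τ') := Real.rpow_pos_of_pos hx0 _
  have h2 : c * (x : ℝ) ^ (1 - τ') ≤ 324 * #(Rs D B x) := by
    have h3 : (x : ℝ) ^ (-(1 - τ')) * (x : ℝ) ^ (1 - τ') = 1 := by
      rw [← Real.rpow_add hx0, neg_add_cancel, Real.rpow_zero]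
    calc c * (x : ℝ) ^ (1 - τ') ≤ (324 * (#(Rs D B x) * (x : ℝ) ^ (-(1 - τ')))) * (x : ℝ) ^ (1 - τ') :=
          mul_le_mul_of_nonneg_right h1 hp.le
      _ = 324 * #(Rs D B x) * ((x : ℝ) ^ (-(1 - τ')) * (x : ℝ) ^ (1 - τ')) := by ring
      _ = 324 * #(Rs D B x) := by rw [h3, mul_one]
  have h4 : (x : ℝ) ^ (1 - τ) * (x : ℝ) ^ (τ / 2) ≤ (x : ℝ) ^ (1 - τ') := by
    rw [← Real.rpow_add hx0]
    exact Real.rpow_le_rpow_of_exponent_le hx1.le (by linarith)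
  have h5 : 0 ≤ (x : ℝ) ^ (1 - τ) := Real.rpow_nonneg hx0.le _
  rw [div_le_iff₀ hc] at f2
  nlinarith [mul_le_mul_of_nonneg_left f2 h5, mul_le_mul_of_nonneg_left h4 hc.le]

end Pool.Agent.Helper48.PS
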