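import Pool.Agent.Helper18.BV.St
import Pool.Agent.Helper44.MertensInterval
import Pool.Agent.Helper48.PS.ManyEnd

/-!
# PS-Many, first half: the weighted sum, from the Bombieri-Vinogradov theorem

The classes of `-1` modulo `D q`, `q` a prime in `(x ^ (1/81), x ^ (1/80)]`.
-/

set_option autoImplicit false

open Finset Filter
open scoped ArithmeticFunction.vonMangoldt

namespace Pool.Agent.Helper48.PS

open Pool.Agent.Helper18.BV

/-- the sum of the reciprocals of the primes in `(x ^ (1/81), x ^ (1/80)]` is bounded below -/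
theorem sum_Qs : ∃ c : ℝ, 0 < c ∧ ∀ᶠ x : ℕ in atTop, c ≤ ∑ q ∈ Qs x, (1 : ℝ) / q := by
  classical
  obtain ⟨C, hC, hmert⟩ := Pool.Agent.Helper44.mertens_interval
  set L : ℝ := Real.log (81 / 80) with hL
  have hL0 : 0 < L := Real.log_pos (by norm_num)
  refine ⟨L / 2, by positivity, ?_⟩
  have e1 : ∀ᶠ x : ℕ in atTop, (2 : ℝ) ≤ (x : ℝ) ^ (1 / 81 : ℝ) :=
    ((tendsto_rpow_atTop (by norm_num)).comp tendsto_natCast_atTop_atTop).eventually_ge_atTop _
  have e2 : ∀ᶠ x : ℕ in atTop, 162 * C / L ≤ Real.log x :=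
    (Real.tendsto_log_atTop.comp tendsto_natCast_atTop_atTop).eventually_ge_atTop _
  filter_upwards [e1, e2, eventually_ge_atTop 2] with x h1 h2 hx
  have hx1 : (1 : ℝ) < x := by exact_mod_cast (by omega : 1 < x)
  have hx0 : (0 : ℝ) < x := by linarith
  have hlog : 0 < Real.log x := Real.log_pos hx1
  have hle : (x : ℝ) ^ (1 / 81 : ℝ) ≤ (x : ℝ) ^ (1 / 80 : ℝ) :=
    Real.rpow_le_rpow_of_exponent_le hx1.le (by norm_num)
  have h3 := (abs_le.1 (hmert _ _ h1 hle)).1
  rw [Real.log_rpow hx0, Real.log_rpow hx0] at h3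
  have h4 : 1 / 80 * Real.log x / (1 / 81 * Real.log x) = 81 / 80 := by
    field_simp
  rw [h4, ← hL] at h3
  have h5 : C / (1 / 81 * Real.log x) ≤ L / 2 := by
    rw [div_le_iff₀ (by positivity)]
    rw [div_le_iff₀ hL0] at h2
    nlinarith
  have h6 : ∑ q ∈ (Finset.Ioc ⌊(x : ℝ) ^ (1 / 81 : ℝ)⌋₊ ⌊(x : ℝ) ^ (1 / 80 : ℝ)⌋₊).filter Nat.Prime,
      (1 : ℝ) / q ≤ ∑ q ∈ Qs x, (1 : ℝ) / q := by
    apply Finset.sum_le_sum_of_subset_of_nonneg
    · intro q hq
      rw [mem_filter, mem_Ioc] at hq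
      have h7 : (x : ℝ) ^ (1 / 81 : ℝ) < q := (Nat.floor_lt (by positivity)).1 hq.1.1
      have h8 : (q : ℝ) ≤ (x : ℝ) ^ (1 / 80 : ℝ) := (Nat.le_floor_iff (by positivity)).1 hq.1.2
      rw [Qs, mem_filter, mem_Icc]
      refine ⟨⟨hq.2.one_lt.le, ?_⟩, hq.2, h7, h8⟩
      have h9 : (x : ℝ) ^ (1 / 80 : ℝ) ≤ (x : ℝ) ^ (1 : ℝ) :=
        Real.rpow_le_rpow_of_exponent_le hx1.le (by norm_num)
      rw [Real.rpow_one] at h9
      exact_mod_cast h8.trans h9
    · intro q _ _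
      positivity
  linarith

/-- the class of `-1` -/
def cm (d : ℕ) : ℕ := if d = 0 then 1 else d - 1

theorem cm_coprime (d : ℕ) : Nat.Coprime (cm d) d := by
  unfold cm
  split_ifs with h
  · exact Nat.coprime_one_left d
  · obtain ⟨k, rfl⟩ := Nat.exists_eq_succ_of_ne_zero h
    simp

theorem cm_iff {d : ℕ} (hd : 0 < d) (n : ℕ) : n ≡ cm d [MOD d] ↔ d ∣ n + 1 := by
  unfold cm
  rw [if_neg (by omega)]
  constructor
  · intro h
    have h1 : n + 1 ≡ d - 1 + 1 [MOD d] := h.add_right 1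
    rw [Nat.sub_add_cancel hd] at h1
    exact (Nat.modEq_zero_iff_dvd).1 (h1.trans (by simp [Nat.ModEq]))
  · intro h
    have h1 : n + 1 ≡ d - 1 + 1 [MOD d] := by
      rw [Nat.sub_add_cancel hd]
      exact ((Nat.modEq_zero_iff_dvd).2 h).trans (by simp [Nat.ModEq])
    exact Nat.ModEq.add_right_cancel' 1 h1

theorem many_sum (hbv : BVav) (hmass : Mass) {D : ℕ} (hD : 0 < D) (g : ℝ → ℝ) (hg : IsWt g)
    (hne : ∃ y, g y ≠ 0) : ManySum D g := by
  classical
  obtain ⟨c₀, C₀, X₀, hc₀, -, -, hM⟩ := hmass g hg hne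
  obtain ⟨C, X₁, hC, -, hB⟩ := hbv g hg 1 one_pos
  obtain ⟨s, hs, hQ⟩ := sum_Qs
  have hD0 : (0 : ℝ) < D := by exact_mod_cast hD
  set c : ℝ := c₀ * s / (2 * D) with hc
  have hcpos : 0 < c := by positivity
  refine ⟨c, hcpos, ?_⟩
  have e1 : ∀ᶠ x : ℕ in atTop, (D : ℝ) ≤ (x : ℝ) ^ (1 / 80 : ℝ) :=
    ((tendsto_rpow_atTop (by norm_num)).comp tendsto_natCast_atTop_atTop).eventually_ge_atTop _
  have e2 : ∀ᶠ x : ℕ in atTop, max X₀ X₁ ≤ (x : ℝ) :=
    tendsto_natCast_atTop_atTop.eventually_ge_atTop _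
  have e3 : ∀ᶠ x : ℕ in atTop, max 1 (C / c) ≤ Real.log x :=
    (Real.tendsto_log_atTop.comp tendsto_natCast_atTop_atTop).eventually_ge_atTop _
  obtain ⟨x₀, hx₀⟩ := eventually_atTop.1 (e1.and (e2.and (e3.and (hQ.and (eventually_ge_atTop 2)))))
  refine ⟨x₀, fun x hx => ?_⟩
  obtain ⟨h1, h2, h3, h4, h5⟩ := hx₀ x hx
  have hx1 : (1 : ℝ) < x := by exact_mod_cast (by omega : 1 < x)
  have hx0 : (0 : ℝ) < x := by linarith
  have hlog : 0 < Real.log x := Real.log_pos hx1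
  have hlog1 : 1 ≤ Real.log x := (le_max_left _ _).trans h3
  have hmass := (hM x ((le_max_left _ _).trans h2)).1
  have hbv := hB x ((le_max_right _ _).trans h2) cm cm_coprime
  rw [Nat.floor_natCast] at hmass hbv
  set M : ℝ := ∑ n ∈ Icc 1 x, Λ n * wt g x n with hMdef
  -- the error terms
  have hinj : Set.InjOn (fun q => D * q) (Qs x : Set ℕ) := by
    intro a _ b _ hab
    exact Nat.eq_of_mul_eq_mul_left hD hab
  have herr : ∑ q ∈ Qs x, |∑ n ∈ (Icc 1 x).filter (fun n => n ≡ cm (D * q) [MOD (D * q)]),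
      Λ n * wt g x n - (1 / ((D * q).totient : ℝ)) * M| ≤ C / Real.log x ^ (1 : ℝ) := by
    refine le_trans ?_ hbv
    rw [← Finset.sum_image (f := fun d => |∑ n ∈ (Icc 1 x).filter (fun n => n ≡ cm d [MOD d]),
      Λ n * wt g x n - (1 / (d.totient : ℝ)) * M|) hinj]
    apply Finset.sum_le_sum_of_subset_of_nonneg
    · intro d hd
      obtain ⟨q, hq, rfl⟩ := mem_image.1 hd
      rw [Qs, mem_filter, mem_Icc] at hq
      rw [mem_Icc]
      refine ⟨Nat.mul_pos hD (by omega), ?_⟩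
      rw [Nat.le_floor_iff (by positivity)]
      push_cast
      calc (D : ℝ) * q ≤ (x : ℝ) ^ (1 / 80 : ℝ) * (x : ℝ) ^ (1 / 80 : ℝ) :=
            mul_le_mul h1 hq.2.2.2 (Nat.cast_nonneg q) (by positivity)
        _ = (x : ℝ) ^ (1 / 40 : ℝ) := by
            rw [← Real.rpow_add hx0]
            norm_num
    · intro d _ _
      exact abs_nonneg _
  rw [Real.rpow_one] at herr
  have hterm : ∀ q ∈ Qs x, (1 / D) * M * ((1 : ℝ) / q) -
      |∑ n ∈ (Icc 1 x).filter (fun n => n ≡ cm (D * q) [MOD (D * q)]),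
        Λ n * wt g x n - (1 / ((D * q).totient : ℝ)) * M| ≤
      ∑ n ∈ (Icc 1 x).filter (fun n => D * q ∣ n + 1), Λ n * wt g x n := by
    intro q hq
    rw [Qs, mem_filter, mem_Icc] at hq
    have hq0 : 0 < q := by omega
    have hDq : 0 < D * q := Nat.mul_pos hD hq0
    have hq0' : (0 : ℝ) < q := by exact_mod_cast hq0
    have e : (Icc 1 x).filter (fun n => D * q ∣ n + 1) =
        (Icc 1 x).filter (fun n => n ≡ cm (D * q) [MOD (D * q)]) :=
      Finset.filter_congr fun n _ => (cm_iff hDq n).symm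
    rw [e]
    have h6 := neg_abs_le (∑ n ∈ (Icc 1 x).filter (fun n => n ≡ cm (D * q) [MOD (D * q)]),
        Λ n * wt g x n - (1 / ((D * q).totient : ℝ)) * M)
    have hM0 : 0 ≤ M := le_trans (by positivity) hmass
    have ht0 : (0 : ℝ) < (D * q).totient := by exact_mod_cast Nat.totient_pos.2 hDq
    have ht : ((D * q).totient : ℝ) ≤ D * q := by
      have := Nat.totient_le (D * q)
      exact_mod_cast this
    have h7 : (1 / D) * M * ((1 : ℝ) / q) ≤ (1 / ((D * q).totient : ℝ)) * M := by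
      calc (1 / D) * M * ((1 : ℝ) / q) = (1 / ((D : ℝ) * q)) * M := by
            field_simp
        _ ≤ (1 / ((D * q).totient : ℝ)) * M :=
            mul_le_mul_of_nonneg_right (one_div_le_one_div_of_le ht0 ht) hM0
    linarith
  have hsum := Finset.sum_le_sum hterm
  rw [Finset.sum_sub_distrib, ← Finset.mul_sum] at hsum
  have h8 : 2 * c * Real.log x ≤ 1 / D * M * ∑ q ∈ Qs x, (1 : ℝ) / q := by
    calc 2 * c * Real.log x = 1 / D * (c₀ * Real.log x) * s := by
          rw [hc]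
          field_simp
      _ ≤ 1 / D * M * ∑ q ∈ Qs x, (1 : ℝ) / q := by
          apply mul_le_mul _ h4 hs.le
          · exact mul_nonneg (by positivity) (le_trans (by positivity) hmass)
          · exact mul_le_mul_of_nonneg_left hmass (by positivity)
  have h9 : C / Real.log x ≤ c * Real.log x := by
    have h10 : C / c ≤ Real.log x := (le_max_right _ _).trans h3
    rw [div_le_iff₀ hcpos] at h10
    rw [div_le_iff₀ hlog]
    nlinarith
  linarith

end Pool.Agent.Helper48.PS
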